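import Pool.Agent.Work.MP_72f8f6_ag.Defs
import Pool.Agent.Work.MP_72f8f6_ag.PolyMem

/-!
A negative answer to Q1: the inclusion `C((I,f)) ⊆ (C(I), f)` fails already for the monomial ideal
`I = (a,b)^2 (c,d)^2` and the linear form `f = a + c` in the polynomial ring `k[a,b,c,d]` over an
arbitrary field `k`; the element `a` lies in `C((I,f))` but not in `C(I) + (f)`.
Here `a, b, c, d` are `X 0, X 1, X 2, X 3`, and `Pool.Agent.Work.MP_72f8f6_ag.conductor I` is
the annihilator of the kernel of `S(I) → R(I)`.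
-/

namespace Pool.Agent.Results.MP_72f8f6_ag.PolynomialCounterexample

open MvPolynomial
open Pool.Agent.Work.MP_72f8f6_ag (conductor)

universe u

/-- For every field `k`, in the Noetherian ring `R = k[a,b,c,d]` the ideal
`I = (a,b)^2 (c,d)^2` and the element `f = a + c` satisfy `I ^ j : f = I ^ j` for all `j ≥ 0`, and
there is an element of `C((I,f))` (namely `a`) that does not lie in `C(I) + f R`. -/
theorem result (k : Type u) [Field k] :
    IsNoetherianRing (MvPolynomial (Fin 4) k) ∧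
    ∃ (I : Ideal (MvPolynomial (Fin 4) k)) (f : MvPolynomial (Fin 4) k),
      I = Ideal.span {X 0, X 1} ^ 2 * Ideal.span {X 2, X 3} ^ 2 ∧ f = X 0 + X 2 ∧
      (∀ j : ℕ, (I ^ j).colon {f} = I ^ j) ∧
      X 0 ∈ conductor (I ⊔ Ideal.span {f}) ∧ X 0 ∉ conductor I ⊔ Ideal.span {f} := by
  refine ⟨inferInstance, Pool.Agent.Work.MP_72f8f6_ag.JI k, Pool.Agent.Work.MP_72f8f6_ag.fac k,
    rfl, rfl, ?_, Pool.Agent.Work.MP_72f8f6_ag.X0_mem, Pool.Agent.Work.MP_72f8f6_ag.X0_not_mem⟩
  intro j
  refine le_antisymm (fun r hr => Pool.Agent.Work.MP_72f8f6_ag.fac_reg j r ?_) (fun r hr => ?_)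
  · rwa [Submodule.mem_colon_singleton, smul_eq_mul] at hr
  · rw [Submodule.mem_colon_singleton, smul_eq_mul]
    exact Ideal.mul_mem_right _ _ hr

end Pool.Agent.Results.MP_72f8f6_ag.PolynomialCounterexample
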